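import Pool.Agent.Q220.IsoDual.Swap
import Pool.Agent.Q220.IsoDual.Tri

/-!
# Iso-dual binary polycyclic codes from trinomials

Let `t = x^n + x^i + 1` over the field with two elements and let `g` divide `t`.

* If `g ^ 2 = t` then the polycyclic code generated by `g` is iso-dual.
* If `n = 2 m`, `i = m` and `g` times its reciprocal polynomial is `t`, then the polycyclic code
  generated by `g` is iso-dual (the exchange of the two halves of the coordinates maps it onto its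
  dual).
* For `n = 20 * 2 ^ s`, `i = 10 * 2 ^ s` there is such a `g` with `g ^ 2 ≠ t`; for `s = 0` it is
  `(x^2+x+1)(x^4+x+1)^2`. So an iso-dual polycyclic code need not come from `g ^ 2 = t`.
-/

namespace Pool.Agent.Results.MP_f969e6_lc.TrinomialIsoDual

open Polynomial Q220.IsoDual

theorem square_case {n i : ℕ} (hi : 1 ≤ i) (hin : i < n) {g : (ZMod 2)[X]}
    (hg : g ^ 2 = tri n i) : IsIsoDual (polycyclic n (tri n i) g) := by
  -- the exponents are even
  have hdegt : (tri n i).natDegree = n := tri_natDegree hin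
  have hn : n = 2 * g.natDegree := by rw [← hdegt, ← hg, natDegree_pow]
  have hie : 2 ∣ i := by
    by_contra h
    have h1 : derivative (tri n i) = 0 := by
      rw [← hg, derivative_pow]
      have : ((2 : ℕ) : ZMod 2) = 0 := by decide
      rw [this]; simp
    have h2 : (derivative (tri n i)).coeff (i - 1) = 1 := by
      rw [coeff_derivative, show i - 1 + 1 = i by omega]
      unfold tri
      rw [coeff_add, coeff_add, coeff_X_pow, coeff_X_pow, coeff_one, if_neg (by omega),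
        if_pos rfl, if_neg (by omega)]
      have h3 : ((i - 1 : ℕ) : ZMod 2) + 1 = 1 := by
        have : ((i - 1 : ℕ) : ZMod 2) = 0 := by
          rw [ZMod.natCast_eq_zero_iff]; omega
        rw [this]; simp
      rw [h3]; simp
    rw [h1] at h2
    simp at h2
  obtain ⟨j, rfl⟩ := hie
  obtain ⟨m, hm⟩ : ∃ m, m = g.natDegree := ⟨_, rfl⟩
  rw [← hm] at hn
  subst hn
  have hj : 0 < j := by omega
  have hjm : j < m := by omega
  have hg2 : g = X ^ m + X ^ j + 1 := by
    have h1 : (g - (X ^ m + X ^ j + 1)) ^ 2 = 0 := by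
      have h2 : (2 : (ZMod 2)[X]) = 0 := CharTwo.two_eq_zero
      unfold tri at hg
      rw [pow_mul', pow_mul'] at hg
      linear_combination hg + (-(g * (X ^ m + X ^ j + 1)) +
        ((X ^ m) ^ 2 + (X ^ j) ^ 2 + 1 + X ^ m * X ^ j + X ^ m + X ^ j)) * h2
    have h2 := pow_eq_zero_iff (two_ne_zero) |>.mp h1
    exact sub_eq_zero.mp h2
  have hdvd : g ∣ tri (2 * m) (2 * j) := ⟨g, by rw [← hg]; ring⟩
  have hset : polycyclic (2 * m) (tri (2 * m) (2 * j)) g = (codeSub (2 * m) g : Set _) := by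
    ext c
    rw [mem_polycyclic hdvd, SetLike.mem_coe, mem_codeSub]
  rw [hset]
  have hmon : g.Monic := by rw [hg2]; exact tri_monic hjm
  have hf := finrank_codeSub (n := 2 * m) hmon (by omega)
  refine isIsoDual_of_orth _ (by omega) (triPerm m j hj hjm) ?_
  intro c hc d hd
  rw [mem_codeSub, hg2] at hc hd
  exact orth_tri hj hjm c d hc hd

theorem reciprocal_case {m : ℕ} (hm : 1 ≤ m) {g : (ZMod 2)[X]}
    (hg : g * g.reverse = tri (2 * m) m) :
    IsIsoDual (polycyclic (2 * m) (tri (2 * m) m) g) := by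
  have hlt : m < 2 * m := by omega
  have hne : tri (2 * m) m ≠ 0 := by
    intro h
    have := tri_natDegree hlt
    unfold tri at h
    rw [h] at this
    simp at this; omega
  have hg0 : g ≠ 0 := by
    rintro rfl
    rw [zero_mul] at hg
    exact hne hg.symm
  have hr0 : g.reverse ≠ 0 := by rwa [Ne, reverse_eq_zero]
  have hc : g.coeff 0 ≠ 0 := by
    intro h0
    have h1 : (g * g.reverse).coeff 0 = 0 := by rw [mul_coeff_zero, h0, zero_mul]
    rw [hg] at h1
    unfold tri at h1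
    rw [coeff_add, coeff_add, coeff_X_pow, coeff_X_pow, coeff_one, if_neg (by omega),
      if_neg (by omega), if_pos rfl] at h1
    simp at h1
  have hdeg : g.natDegree = m := by
    have h1 : (g * g.reverse).natDegree = 2 * m := by rw [hg]; exact tri_natDegree hlt
    rw [natDegree_mul hg0 hr0, reverse_natDegree,
      natTrailingDegree_eq_zero.mpr (Or.inr hc)] at h1
    omega
  have hmon : g.Monic := by
    have : g.leadingCoeff ≠ 0 := leadingCoeff_ne_zero.mpr hg0
    have h2 : ∀ a : ZMod 2, a ≠ 0 → a = 1 := by decide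
    exact h2 _ this
  have hdvd : g ∣ tri (2 * m) m := ⟨g.reverse, hg.symm⟩
  have hset : polycyclic (2 * m) (tri (2 * m) m) g = (codeSub (2 * m) g : Set _) := by
    ext c
    rw [mem_polycyclic hdvd, SetLike.mem_coe, mem_codeSub]
  rw [hset]
  have hf := finrank_codeSub (n := 2 * m) hmon (by omega)
  refine isIsoDual_of_orth _ (by omega) (halfSwap m) ?_
  intro c hc d hd
  rw [mem_codeSub] at hc hd
  exact orth_swap (by omega) hdeg hg c d hc hd

/-- the polynomial `(x^2+x+1)(x^4+x+1)^2` -/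
noncomputable def g₀ : (ZMod 2)[X] := (X ^ 2 + X ^ 1 + 1) * (X ^ 4 + X ^ 1 + 1) ^ 2

theorem reverse_tri {m j : ℕ} (hjm : j < m) :
    (X ^ m + X ^ j + 1 : (ZMod 2)[X]).reverse = X ^ m + X ^ (m - j) + 1 := by
  unfold reverse
  rw [tri_natDegree hjm, reflect_add, reflect_add, reflect_monomial, reflect_monomial,
    revAt_le le_rfl, revAt_le hjm.le, Nat.sub_self, pow_zero]
  have : reflect m (1 : (ZMod 2)[X]) = X ^ m := by
    have := reflect_monomial (R := ZMod 2) m 0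
    rw [pow_zero, revAt_zero] at this
    exact this
  rw [this]; ring

theorem reverse_pow' (g : (ZMod 2)[X]) (k : ℕ) : (g ^ k).reverse = g.reverse ^ k := by
  induction k with
  | zero =>
    rw [pow_zero, pow_zero, ← C_1]
    exact reverse_C 1
  | succ k ih => rw [pow_succ, reverse_mul_of_domain, ih, pow_succ]

theorem g₀_reverse : g₀.reverse = (X ^ 2 + X ^ 1 + 1) * (X ^ 4 + X ^ 3 + 1) ^ 2 := by
  unfold g₀
  rw [reverse_mul_of_domain, reverse_pow', reverse_tri (by norm_num),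
    reverse_tri (by norm_num)]

theorem g₀_mul : g₀ * g₀.reverse = X ^ 20 + X ^ 10 + 1 := by
  rw [g₀_reverse]
  unfold g₀
  have h2 : (2 : (ZMod 2)[X]) = 0 := CharTwo.two_eq_zero
  linear_combination (2 * X ^ 1 + 4 * X ^ 2 + 6 * X ^ 3 + 10 * X ^ 4 + 17 * X ^ 5 + 24 * X ^ 6 +
    28 * X ^ 7 + 32 * X ^ 8 + 38 * X ^ 9 + 41 * X ^ 10 + 38 * X ^ 11 + 32 * X ^ 12 +
    28 * X ^ 13 + 24 * X ^ 14 + 17 * X ^ 15 + 10 * X ^ 16 + 6 * X ^ 17 + 4 * X ^ 18 +
    2 * X ^ 19) * h2

theorem g₀_ne : g₀ ≠ g₀.reverse := by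
  intro h
  rw [g₀_reverse] at h
  unfold g₀ at h
  have e1 : ((X ^ 2 + X ^ 1 + 1) * (X ^ 4 + X ^ 1 + 1) ^ 2 : (ZMod 2)[X]) =
      X ^ 10 + X ^ 9 + X ^ 8 + X ^ 4 + X ^ 3 + X ^ 1 + 1 := by
    have h2 : (2 : (ZMod 2)[X]) = 0 := CharTwo.two_eq_zero
    linear_combination (X + 2 * X ^ 2 + X ^ 3 + X ^ 4 + 2 * X ^ 5 + 2 * X ^ 6 + X ^ 7) * h2
  have e2 : ((X ^ 2 + X ^ 1 + 1) * (X ^ 4 + X ^ 3 + 1) ^ 2 : (ZMod 2)[X]) =
      X ^ 10 + X ^ 9 + X ^ 7 + X ^ 6 + X ^ 2 + X ^ 1 + 1 := by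
    have h2 : (2 : (ZMod 2)[X]) = 0 := CharTwo.two_eq_zero
    linear_combination (X ^ 3 + 2 * X ^ 4 + 2 * X ^ 5 + X ^ 6 + X ^ 7 + 2 * X ^ 8 + X ^ 9) * h2
  rw [e1, e2] at h
  have h3 := congrArg (fun p => coeff p 2) h
  simp [coeff_X, coeff_one] at h3

/-- **Main theorem.** -/
theorem result :
    (∀ n i : ℕ, 1 ≤ i → i < n → ∀ g : (ZMod 2)[X], g ^ 2 = tri n i →
      IsIsoDual (polycyclic n (tri n i) g)) ∧
    (∀ m : ℕ, 1 ≤ m → ∀ g : (ZMod 2)[X], g * g.reverse = tri (2 * m) m →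
      IsIsoDual (polycyclic (2 * m) (tri (2 * m) m) g)) ∧
    (∀ s : ℕ, ∃ g : (ZMod 2)[X], g.Monic ∧ g ∣ tri (20 * 2 ^ s) (10 * 2 ^ s) ∧
      g ^ 2 ≠ tri (20 * 2 ^ s) (10 * 2 ^ s) ∧
      IsIsoDual (polycyclic (20 * 2 ^ s) (tri (20 * 2 ^ s) (10 * 2 ^ s)) g)) := by
  refine ⟨fun n i hi hin g hg => square_case hi hin hg, fun m hm g hg => reciprocal_case hm hg, ?_⟩
  intro s
  have ht : (g₀ ^ 2 ^ s) * (g₀ ^ 2 ^ s).reverse = tri (20 * 2 ^ s) (10 * 2 ^ s) := by
    rw [reverse_pow', ← mul_pow, g₀_mul]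
    unfold tri
    rw [add_pow_char_pow, add_pow_char_pow, one_pow, ← pow_mul, ← pow_mul]
  have h20 : 20 * 2 ^ s = 2 * (10 * 2 ^ s) := by ring
  have hpos : 1 ≤ 10 * 2 ^ s := by have := Nat.one_le_two_pow (n := s); omega
  refine ⟨g₀ ^ 2 ^ s, ?_, ⟨_, ht.symm⟩, ?_, ?_⟩
  · apply Monic.pow
    unfold g₀
    exact (tri_monic (by norm_num)).mul ((tri_monic (by norm_num)).pow 2)
  · intro h
    have h0 : (g₀ ^ 2 ^ s) ≠ 0 := by
      apply pow_ne_zero
      intro h0
      apply g₀_ne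
      rw [h0]; simp
    rw [← ht, sq] at h
    have h1 := mul_left_cancel₀ h0 h
    rw [reverse_pow'] at h1
    have h2 : (g₀ - g₀.reverse) ^ 2 ^ s = 0 := by
      rw [sub_pow_char_pow, h1, sub_self]
    have h3 := pow_eq_zero_iff (pow_ne_zero s two_ne_zero) |>.mp h2
    exact g₀_ne (sub_eq_zero.mp h3)
  · rw [h20]
    rw [h20] at ht
    exact reciprocal_case hpos ht

end Pool.Agent.Results.MP_f969e6_lc.TrinomialIsoDual
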